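import Pool.Agent.Lib_helper25.ET.Base

/-! Project ET (MP_861054_an), block ER. -/

set_option autoImplicit false

namespace Pool.Agent.ET

open MeasureTheory Filter Topology Set
open scoped ContDiff ENNReal

noncomputable section

variable {S : Torus}

theorem ER_shift {γ : ℝ → ℂ} (h : S.IsGeodesic γ) (s : ℝ) : S.IsGeodesic (fun t => γ (t + s)) := by
  have e : deriv (fun t => γ (t + s)) = fun t => deriv γ (t + s) := by
    funext t
    exact deriv_comp_add_const γ s t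
  have e2 : deriv (fun t => deriv γ (t + s)) = fun t => deriv (deriv γ) (t + s) := by
    funext t
    exact deriv_comp_add_const (deriv γ) s t
  refine ⟨?_, ?_, ?_⟩
  · exact h.smooth.comp (contDiff_id.add contDiff_const)
  · intro t
    rw [e]
    exact h.unit (t + s)
  · intro t
    rw [e, e2]
    exact h.eq (t + s)

theorem ER_at (Φ : Flow S) (t : ℝ) (v : ℂ × ℝ) : S.At (fun t => (Φ.φ t v).1) t (Φ.φ t v) :=
  ⟨rfl, (Φ.vel v t).deriv⟩

theorem ER_at0 (Φ : Flow S) (v : ℂ × ℝ) : S.At (fun t => (Φ.φ t v).1) 0 v := by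
  have := ER_at Φ 0 v
  rwa [Φ.zero] at this

theorem ER_int {A : Set (ℂ × ℝ)} (hi : S.Inv (fun v => v ∈ A)) (z : ℂ) (θ : ℝ) (k : ℤ) :
    ((z, θ + k * (2 * Real.pi)) ∈ A) = ((z, θ) ∈ A) := by
  have hper : Function.Periodic (fun θ : ℝ => ((z, θ) ∈ A)) (2 * Real.pi) := fun θ =>
    hi.inv₃ (z, θ)
  exact hper.int_mul k θ

theorem ER_eq {γ : ℝ → ℂ} {t : ℝ} {v w : ℂ × ℝ} (hv : S.At γ t v) (hw : S.At γ t w) :
    w.1 = v.1 ∧ ∃ k : ℤ, w.2 = v.2 + k * (2 * Real.pi) := by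
  have h1 : w.1 = v.1 := by rw [← hw.1, ← hv.1]
  refine ⟨h1, ?_⟩
  have h2 := hv.2.symm.trans hw.2
  rw [h1] at h2
  have h3 : (Real.exp (-S.u v.1) : ℂ) ≠ 0 := by
    exact_mod_cast (Real.exp_pos _).ne'
  have h4 := mul_left_cancel₀ h3 h2
  rw [Complex.exp_eq_exp_iff_exists_int] at h4
  obtain ⟨k, hk⟩ := h4
  refine ⟨-k, ?_⟩
  have h5 : ((v.2 : ℂ)) = w.2 + k * (2 * Real.pi) := by
    have : (v.2 : ℂ) * Complex.I = ((w.2 : ℂ) + k * (2 * Real.pi)) * Complex.I := by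
      rw [hk]
      ring
    exact mul_right_cancel₀ Complex.I_ne_zero this
  have h6 : v.2 = w.2 + k * (2 * Real.pi) := by exact_mod_cast h5
  push_cast
  linarith

/-- ER: ergodicity in terms of the flow -/
theorem erg_flow (h : S.Ergodic) (Φ : Flow S) (A : Set (ℂ × ℝ)) (hA : MeasurableSet A)
    (hi : S.Inv (fun v => v ∈ A)) (hf : ∀ t v, Φ.φ t v ∈ A ↔ v ∈ A) :
    volume A = 0 ∨ volume Aᶜ = 0 := by
  refine h A hA (fun v => iff_of_eq (hi.inv₁ v)) (fun v => iff_of_eq (hi.inv₂ v)) ?_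
  intro γ hγ s t v w hv hw
  have hγs := ER_shift hγ s
  have h0 : S.At (fun τ => γ (τ + s)) 0 v := by
    refine ⟨?_, ?_⟩
    · show γ (0 + s) = v.1
      rw [zero_add]
      exact hv.1
    · rw [deriv_comp_add_const γ s 0, zero_add]
      exact hv.2
  have hu := Φ.uniq _ v hγs h0
  have h1 : S.At γ t (Φ.φ (t - s) v) := by
    have h2 := ER_at Φ (t - s) v
    rw [← hu] at h2
    refine ⟨?_, ?_⟩
    · have := h2.1
      simpa using this
    · have := h2.2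
      rw [deriv_comp_add_const γ s (t - s), sub_add_cancel] at this
      exact this
  obtain ⟨e1, k, e2⟩ := ER_eq h1 hw
  have h3 : (w ∈ A) = (Φ.φ (t - s) v ∈ A) := by
    have := ER_int hi (Φ.φ (t - s) v).1 (Φ.φ (t - s) v).2 k
    rw [← e1, ← e2] at this
    rw [show w = (w.1, w.2) from rfl, this, e1]
  rw [h3]
  exact (hf (t - s) v).symm

theorem Tb_iff (Φ : Flow S) (v : ℂ × ℝ) : v ∈ S.Tb ↔ ∃ C, ∀ t, ‖Φ.D t v‖ ≤ C := by
  have h1 : v ∈ S.Tb ↔ Bornology.IsBounded (range fun t => (Φ.φ t v).1) := by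
    constructor
    · intro hv
      exact hv _ (Φ.geod v) (ER_at0 Φ v)
    · intro hb γ hγ h0
      rw [Φ.uniq γ v hγ h0]
      exact hb
  rw [h1, isBounded_iff_forall_norm_le]
  constructor
  · rintro ⟨C, hC⟩
    refine ⟨C + ‖v.1‖, fun t => ?_⟩
    have h2 := hC _ (mem_range_self t)
    calc ‖Φ.D t v‖ = ‖(Φ.φ t v).1 - v.1‖ := rfl
      _ ≤ ‖(Φ.φ t v).1‖ + ‖v.1‖ := norm_sub_le _ _
      _ ≤ _ := by linarith
  · rintro ⟨C, hC⟩
    refine ⟨‖v.1‖ + C, ?_⟩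
    rintro _ ⟨t, rfl⟩
    show ‖(Φ.φ t v).1‖ ≤ _
    rw [Φ.pos]
    exact (norm_add_le _ _).trans (by linarith [hC t])

theorem Tp_iff (Φ : Flow S) (v : ℂ × ℝ) :
    v ∈ S.Tp ↔ ∀ C : ℝ, ∃ T : ℝ, ∀ t : ℝ, T ≤ |t| → C ≤ ‖Φ.D t v‖ := by
  have h1 : v ∈ S.Tp ↔ Tendsto (fun t => ‖(Φ.φ t v).1‖) (cocompact ℝ) atTop := by
    constructor
    · intro hv
      exact hv _ (Φ.geod v) (ER_at0 Φ v)
    · intro hb γ hγ h0
      rw [Φ.uniq γ v hγ h0]
      exact hb
  have ha : ∀ t, ‖(Φ.φ t v).1‖ ≤ ‖Φ.D t v‖ + ‖v.1‖ := fun t => by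
    rw [Φ.pos]
    exact (norm_add_le _ _).trans (by linarith)
  have hb : ∀ t, ‖Φ.D t v‖ ≤ ‖(Φ.φ t v).1‖ + ‖v.1‖ := fun t => norm_sub_le _ _
  rw [h1, cocompact_eq_atBot_atTop, tendsto_sup]
  constructor
  · rintro ⟨h2, h3⟩ C
    obtain ⟨a, ha'⟩ := (eventually_atBot.mp (h2.eventually (eventually_ge_atTop (C + ‖v.1‖))))
    obtain ⟨b, hb'⟩ := (eventually_atTop.mp (h3.eventually (eventually_ge_atTop (C + ‖v.1‖))))
    refine ⟨max (-a) b, fun t ht => ?_⟩
    have h4 : C + ‖v.1‖ ≤ ‖(Φ.φ t v).1‖ := by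
      rcases le_abs'.mp ht with h5 | h5
      · exact ha' t (by linarith [le_max_left (-a) b])
      · exact hb' t (by linarith [le_max_right (-a) b])
    linarith [ha t]
  · intro h
    constructor
    · refine tendsto_atTop.mpr fun C => ?_
      obtain ⟨T, hT⟩ := h (C + ‖v.1‖)
      filter_upwards [eventually_le_atBot (-T)] with t ht
      have := hT t (by rw [le_abs']; left; linarith)
      linarith [hb t]
    · refine tendsto_atTop.mpr fun C => ?_
      obtain ⟨T, hT⟩ := h (C + ‖v.1‖)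
      filter_upwards [eventually_ge_atTop T] with t ht
      have := hT t (ht.trans (le_abs_self t))
      linarith [hb t]

theorem Tb_meas (Φ : Flow S) : MeasurableSet S.Tb := by
  have e : S.Tb = ⋃ k : ℕ, ⋂ t : ℝ, {v | ‖Φ.D t v‖ ≤ k} := by
    ext v
    rw [Tb_iff Φ]
    simp only [mem_iUnion, mem_iInter, mem_ofPred_eq]
    constructor
    · rintro ⟨C, hC⟩
      obtain ⟨k, hk⟩ := exists_nat_ge C
      exact ⟨k, fun t => (hC t).trans hk⟩
    · rintro ⟨k, hk⟩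
      exact ⟨k, hk⟩
  rw [e]
  refine MeasurableSet.iUnion fun k => IsClosed.measurableSet (isClosed_iInter fun t => ?_)
  exact isClosed_le (Φ.D_cont_v t).norm continuous_const

theorem Tp_meas (Φ : Flow S) : MeasurableSet S.Tp := by
  have e : S.Tp = ⋂ C : ℕ, ⋃ T : ℕ, ⋂ t : ℝ, {v | (T : ℝ) ≤ |t| → (C : ℝ) ≤ ‖Φ.D t v‖} := by
    ext v
    rw [Tp_iff Φ]
    simp only [mem_iUnion, mem_iInter, mem_ofPred_eq]
    constructor
    · intro h C
      obtain ⟨T, hT⟩ := h C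
      obtain ⟨k, hk⟩ := exists_nat_ge T
      exact ⟨k, fun t ht => hT t (hk.trans ht)⟩
    · intro h C
      obtain ⟨c, hc⟩ := exists_nat_ge C
      obtain ⟨T, hT⟩ := h c
      exact ⟨T, fun t ht => hc.trans (hT t ht)⟩
  rw [e]
  refine MeasurableSet.iInter fun C => MeasurableSet.iUnion fun T =>
    IsClosed.measurableSet (isClosed_iInter fun t => ?_)
  by_cases ht : (T : ℝ) ≤ |t|
  · have : {v | (T : ℝ) ≤ |t| → (C : ℝ) ≤ ‖Φ.D t v‖} = {v | (C : ℝ) ≤ ‖Φ.D t v‖} := by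
      ext v
      simp [ht]
    rw [this]
    exact isClosed_le continuous_const (Φ.D_cont_v t).norm
  · have : {v | (T : ℝ) ≤ |t| → (C : ℝ) ≤ ‖Φ.D t v‖} = univ := by
      ext v
      simp [ht]
    rw [this]
    exact isClosed_univ

theorem Tb_01 (h : S.Ergodic) (Φ : Flow S) : volume S.Tb = 0 ∨ volume S.Tbᶜ = 0 := by
  refine erg_flow h Φ S.Tb (Tb_meas Φ) ?_ ?_
  · have h1 : (fun v => v ∈ S.Tb) = fun v => ∃ C, ∀ t, ‖Φ.D t v‖ ≤ C := by
      funext v
      exact propext (Tb_iff Φ v)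
    rw [h1]
    exact Torus.Inv.ex fun C => Torus.Inv.all fun t => (Φ.D_inv t).comp fun z => ‖z‖ ≤ C
  · intro t v
    rw [Tb_iff Φ, Tb_iff Φ]
    constructor
    · rintro ⟨C, hC⟩
      refine ⟨C + ‖Φ.D t v‖, fun s => ?_⟩
      have h2 := Φ.D_sub s t v
      have h3 : Φ.D s v = Φ.D (s - t) (Φ.φ t v) + Φ.D t v := by rw [h2]; ring
      rw [h3]
      exact (norm_add_le _ _).trans (by linarith [hC (s - t)])
    · rintro ⟨C, hC⟩
      refine ⟨C + ‖Φ.D t v‖, fun s => ?_⟩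
      have h2 : Φ.D s (Φ.φ t v) = Φ.D (s + t) v - Φ.D t v := by
        rw [Φ.D_add]
        ring
      rw [h2]
      exact (norm_sub_le _ _).trans (by linarith [hC (s + t)])

theorem Tp_01 (h : S.Ergodic) (Φ : Flow S) : volume S.Tp = 0 ∨ volume S.Tpᶜ = 0 := by
  refine erg_flow h Φ S.Tp (Tp_meas Φ) ?_ ?_
  · have h1 : (fun v => v ∈ S.Tp) =
        fun v => ∀ C : ℝ, ∃ T : ℝ, ∀ t : ℝ, T ≤ |t| → C ≤ ‖Φ.D t v‖ := by
      funext v
      exact propext (Tp_iff Φ v)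
    rw [h1]
    exact Torus.Inv.all fun C => Torus.Inv.ex fun T => Torus.Inv.all fun t =>
      (Φ.D_inv t).comp fun z => T ≤ |t| → C ≤ ‖z‖
  · intro t v
    rw [Tp_iff Φ, Tp_iff Φ]
    constructor
    · intro H C
      obtain ⟨T, hT⟩ := H (C + ‖Φ.D t v‖)
      refine ⟨T + |t|, fun s hs => ?_⟩
      have h2 := Φ.D_sub s t v
      have h3 : T ≤ |s - t| := by
        have := abs_sub_abs_le_abs_sub s t
        linarith
      have h4 := hT (s - t) h3
      rw [h2] at h4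
      have h5 := norm_sub_le (Φ.D s v) (Φ.D t v)
      linarith
    · intro H C
      obtain ⟨T, hT⟩ := H (C + ‖Φ.D t v‖)
      refine ⟨T + |t|, fun s hs => ?_⟩
      have h2 : Φ.D s (Φ.φ t v) = Φ.D (s + t) v - Φ.D t v := by
        rw [Φ.D_add]
        ring
      have h3 : T ≤ |s + t| := by
        have := abs_sub_abs_le_abs_sub s (-t)
        rw [abs_neg, sub_neg_eq_add] at this
        linarith
      have h4 := hT (s + t) h3
      rw [h2]
      have h5 := norm_sub_norm_le (Φ.D (s + t) v) (Φ.D t v)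
      linarith

end

end Pool.Agent.ET
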