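import Pool.Agent.Lib_helper25.ET.Base
import Pool.Agent.Lib_helper25.ET.FL
import Pool.Agent.Lib_helper42.ET.IV

/-! Project ET (MP_861054_an), block M1. -/

set_option autoImplicit false

namespace Pool.Agent.ET

open MeasureTheory Filter Topology Set
open scoped ContDiff ENNReal

noncomputable section

/-- von Neumann's theorem for a measure preserving map -/
theorem M1_abs {α : Type*} [MeasurableSpace α] {μ : Measure α} {τ : α → α}
    (hτ : MeasurePreserving τ μ μ) {h : α → ℂ} (hh : MemLp h 2 μ) (Dn : ℕ → α → ℂ)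
    (hD : ∀ n, Dn n =ᵐ[μ] fun v => ∑ k ∈ Finset.range n, h (τ^[k] v)) :
    ∃ g : α → ℂ, Measurable g ∧ ∫⁻ v, ENNReal.ofReal (‖g v‖ ^ 2) ∂μ < ⊤ ∧
      Tendsto (fun n : ℕ => ∫⁻ v, ENNReal.ofReal (‖Dn n v / n - g v‖ ^ 2) ∂μ) atTop (𝓝 0) := by
  set T := (Lp.compMeasurePreservingₗᵢ ℂ (E := ℂ) (p := 2) τ hτ).toContinuousLinearMap with hT
  have hT1 : ‖T‖ ≤ 1 := LinearIsometry.norm_toContinuousLinearMap_le _
  set x : Lp ℂ 2 μ := hh.toLp h with hx
  have hmain := ContinuousLinearMap.tendsto_birkhoffAverage_orthogonalProjection T hT1 x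
  obtain ⟨P, hconv⟩ : ∃ P : Lp ℂ 2 μ,
      Tendsto (fun n => birkhoffAverage ℂ T _root_.id n x) atTop (𝓝 P) := ⟨_, hmain⟩
  -- the iterates
  have hit : ∀ k : ℕ, (T^[k] x : α → ℂ) =ᵐ[μ] fun v => h (τ^[k] v) := by
    intro k
    have h1 : (T : Lp ℂ 2 μ → Lp ℂ 2 μ)^[k] = Lp.compMeasurePreserving τ^[k] (hτ.iterate k) := by
      rw [← Lp.compMeasurePreserving_iterate hτ k]
      rfl
    rw [h1]
    refine (Lp.coeFn_compMeasurePreserving x (hτ.iterate k)).trans ?_
    have h2 := (hτ.iterate k).quasiMeasurePreserving.ae_eq_comp (hh.coeFn_toLp)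
    exact h2
  have hsum : ∀ n : ℕ, ((birkhoffSum T _root_.id n x : Lp ℂ 2 μ) : α → ℂ) =ᵐ[μ] Dn n := by
    intro n
    have h1 : ((birkhoffSum T _root_.id n x : Lp ℂ 2 μ) : α → ℂ) =ᵐ[μ]
        fun v => ∑ k ∈ Finset.range n, h (τ^[k] v) := by
      induction n with
      | zero =>
        simp only [birkhoffSum_zero, Finset.range_zero, Finset.sum_empty]
        exact Lp.coeFn_zero ℂ 2 μ
      | succ n ih =>
        rw [birkhoffSum_succ]
        filter_upwards [Lp.coeFn_add (birkhoffSum T _root_.id n x) (_root_.id (T^[n] x)), ih,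
          hit n] with v h2 h3 h4
        rw [h2, Pi.add_apply, h3, Finset.sum_range_succ]
        congr 1
    exact h1.trans (hD n).symm
  have hav : ∀ n : ℕ, (birkhoffAverage ℂ T _root_.id n x - P : Lp ℂ 2 μ) =ᵐ[μ]
      fun v => Dn n v / n - P v := by
    intro n
    rw [birkhoffAverage]
    filter_upwards [Lp.coeFn_sub ((n : ℂ)⁻¹ • birkhoffSum T _root_.id n x) P,
      Lp.coeFn_smul ((n : ℂ)⁻¹) (birkhoffSum T _root_.id n x), hsum n] with v h1 h2 h3
    rw [h1, Pi.sub_apply, h2, Pi.smul_apply, h3, smul_eq_mul, div_eq_inv_mul]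
  -- norms
  have hsq : ∀ F : α → ℂ, ∫⁻ v, ENNReal.ofReal (‖F v‖ ^ 2) ∂μ = (eLpNorm F 2 μ) ^ 2 := by
    intro F
    have h1 := eLpNorm_nnreal_pow_eq_lintegral (μ := μ) (f := F) (p := 2) (by norm_num)
    have h2 : (eLpNorm F 2 μ) ^ 2 = eLpNorm F ((2 : NNReal) : ℝ≥0∞) μ ^ (((2 : NNReal)) : ℝ) := by
      norm_num
    rw [h2, h1]
    refine lintegral_congr fun v => ?_
    rw [ENNReal.ofReal_pow (norm_nonneg _), ofReal_norm]
    norm_num
  refine ⟨P, (Lp.stronglyMeasurable P).measurable, ?_, ?_⟩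
  · rw [hsq]
    exact ENNReal.pow_lt_top (Lp.eLpNorm_lt_top P)
  · have h1 : ∀ n : ℕ, ∫⁻ v, ENNReal.ofReal (‖Dn n v / n - P v‖ ^ 2) ∂μ
        = ENNReal.ofReal ‖birkhoffAverage ℂ T _root_.id n x - P‖ ^ 2 := by
      intro n
      rw [hsq, eLpNorm_congr_ae (hav n).symm, Lp.norm_def,
        ENNReal.ofReal_toReal (Lp.eLpNorm_lt_top _).ne]
    simp only [h1]
    have h2 : Tendsto (fun n => ‖birkhoffAverage ℂ T _root_.id n x - P‖) atTop (𝓝 0) :=
      tendsto_iff_norm_sub_tendsto_zero.mp hconv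
    have h3 := ENNReal.tendsto_ofReal h2
    have h4 := ENNReal.Tendsto.pow (n := 2) h3
    simpa using h4

variable {S : Torus}

/-! statements of other blocks -/

/-! the block -/

/-- M1: mean ergodic theorem of von Neumann -/
theorem mean_ergodic (Φ : Flow S) : ∃ g : ℂ × ℝ → ℂ, Measurable g ∧
    ∫⁻ v in S.box, ENNReal.ofReal (‖g v‖ ^ 2) ∂S.m < ⊤ ∧
    Tendsto (fun n : ℕ => ∫⁻ v in S.box, ENNReal.ofReal (‖Φ.D n v / n - g v‖ ^ 2) ∂S.m)
      atTop (𝓝 0) := by
  obtain ⟨r, hrm, hrbox, hrid, hrinv, hrH⟩ := exists_red S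
  obtain ⟨C, hC, hDC⟩ := D_le Φ
  set μ := S.m.restrict S.box with hμ
  have : IsFiniteMeasure μ := ⟨by rw [hμ, Measure.restrict_apply_univ]; exact box_fin S⟩
  set τ : ℂ × ℝ → ℂ × ℝ := fun v => r (Φ.φ 1 v) with hτd
  have hτm : Measurable τ := hrm.comp (Φ.cont_v 1).measurable
  have hbox : ∀ᵐ v ∂μ, v ∈ S.box := ae_restrict_mem (box_meas S)
  have hτ : MeasurePreserving τ μ μ := by
    refine ⟨hτm, ?_⟩
    ext B hB
    rw [Measure.map_apply hτm hB]
    have h1 := lint_inv Φ 1 (fun v => B.indicator 1 (r v)) ((measurable_one.indicator hB).comp hrm)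
      (hrinv.comp (fun w => B.indicator (1 : ℂ × ℝ → ℝ≥0∞) w))
    have h2 : ∫⁻ v in S.box, B.indicator 1 (r (Φ.φ 1 v)) ∂S.m = μ (τ ⁻¹' B) := by
      rw [← lintegral_indicator_one (hτm hB)]
      rfl
    have h3 : ∫⁻ v in S.box, B.indicator 1 (r v) ∂S.m = μ B := by
      rw [← lintegral_indicator_one hB]
      refine lintegral_congr_ae ?_
      filter_upwards [hbox] with v hv
      rw [hrid v hv]
    rw [← h2, ← h3]
    exact h1
  have hh : MemLp (Φ.D 1) 2 μ := by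
    refine MemLp.of_bound (C := C) ((Φ.D_cont_v 1).measurable.aestronglyMeasurable) ?_
    refine Filter.Eventually.of_forall fun v => ?_
    have := hDC 1 v
    simpa using this
  -- the iterates of τ on the box
  have hiter : ∀ k : ℕ, ∀ v ∈ S.box, τ^[k] v = r (Φ.φ k v) := by
    intro k
    induction k with
    | zero =>
      intro v hv
      simp [Φ.zero, hrid v hv]
    | succ k ih =>
      intro v hv
      rw [Function.iterate_succ_apply', ih v hv]
      have h1 := hrH _ _ (hrinv.phi Φ 1) (Φ.φ k v)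
      show r (Φ.φ 1 (r (Φ.φ k v))) = _
      rw [h1, ← Φ.add]
      congr 2
      push_cast
      ring
  have hsum : ∀ n : ℕ, (fun v => Φ.D n v) =ᵐ[μ]
      fun v => ∑ k ∈ Finset.range n, Φ.D 1 (τ^[k] v) := by
    intro n
    filter_upwards [hbox] with v hv
    have h1 : ∀ k : ℕ, Φ.D 1 (τ^[k] v) = Φ.D 1 (Φ.φ k v) := by
      intro k
      rw [hiter k v hv]
      exact hrH _ _ (Φ.D_inv 1) _
    simp only [h1]
    induction n with
    | zero => simp
    | succ n ih =>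
      rw [Finset.sum_range_succ, ← ih, ← add_comm (Φ.D 1 _), ← Φ.D_add]
      congr 1
      push_cast
      ring
  exact M1_abs hτ hh (fun n v => Φ.D n v) hsum

end

end Pool.Agent.ET
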